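import Pool.Agent.H261R3.LN.UStmts

set_option autoImplicit false

open scoped NNReal ENNReal unitInterval Topology

namespace Pool.Agent.H683R3.LN

open Pool.Agent.H261R3.LN Filter
open Pool.Agent.H261R3.LH (Lip1 IsLNR clip clip_nonneg)

theorem finite_fibre {S : Type} [MetricSpace S] [PathConnectedSpace S] (p : S)
    (h : Finite (Path.Homotopic.Quotient p p)) (y : S) :
    Finite (Path.Homotopic.Quotient p y) := by
  obtain ⟨γ⟩ := (PathConnectedSpace.joined p y : Joined p y)
  refine Finite.of_injective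
    (fun c : Path.Homotopic.Quotient p y => c.trans (Path.Homotopic.Quotient.mk γ.symm)) ?_
  intro c c' hcc
  have h1 : (Path.Homotopic.Quotient.mk γ.symm).trans (Path.Homotopic.Quotient.mk γ) =
      Path.Homotopic.Quotient.refl y := by
    rw [← Path.Homotopic.Quotient.mk_trans, ← Path.Homotopic.Quotient.mk_refl]
    exact Path.Homotopic.Quotient.eq.2 ⟨(Path.Homotopy.reflSymmTrans γ).symm⟩
  have h2 : (c.trans (Path.Homotopic.Quotient.mk γ.symm)).trans (Path.Homotopic.Quotient.mk γ) =
      (c'.trans (Path.Homotopic.Quotient.mk γ.symm)).trans (Path.Homotopic.Quotient.mk γ) := by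
    simp only at hcc
    rw [hcc]
  rwa [q_trans_assoc, q_trans_assoc, h1, q_trans_refl, q_trans_refl] at h2

theorem taskU2 : TaskU2 := by
  intro S _ _ _ _ ε hε L p hfin
  letI := ucMetric L hε p
  rw [← isCompact_univ_iff, isCompact_iff_ultrafilter_le_nhds]
  intro f _
  -- limit of the base points
  obtain ⟨y, -, hy⟩ := isCompact_iff_ultrafilter_le_nhds.1 (isCompact_univ (X := S))
    (f.map (ucProj p)) (by simp)
  have hy' : Tendsto (ucProj p) f (𝓝 y) := hy
  have hF := finite_fibre p hfin y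
  -- the class over `y`
  obtain ⟨c, hc⟩ : ∃ c : Path.Homotopic.Quotient p y,
      {a : UC p | a.2.trans (L.seg a.1 y) = c} ∈ f := by
    have h1 : (⋃ c ∈ (Set.univ : Set (Path.Homotopic.Quotient p y)),
        {a : UC p | a.2.trans (L.seg a.1 y) = c}) ∈ f := by
      have : (⋃ c ∈ (Set.univ : Set (Path.Homotopic.Quotient p y)),
          {a : UC p | a.2.trans (L.seg a.1 y) = c}) = Set.univ := by
        ext a
        simp
      rw [this]
      exact Filter.univ_mem
    rw [Ultrafilter.finite_biUnion_mem_iff Set.finite_univ] at h1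
    obtain ⟨c, -, hc⟩ := h1
    exact ⟨c, hc⟩
  refine ⟨⟨y, c⟩, Set.mem_univ _, ?_⟩
  rw [Metric.nhds_basis_ball.ge_iff]
  intro r hr
  have h2 : ∀ᶠ a : UC p in (f : Filter (UC p)), dist (ucProj p a) y < min r (ε / 4) :=
    hy' (Metric.ball_mem_nhds y (lt_min hr (by positivity)))
  have h3 : ∀ᶠ a : UC p in (f : Filter (UC p)), a.2.trans (L.seg a.1 y) = c := hc
  filter_upwards [h2, h3] with a ha1 ha2
  show ucDist L a ⟨y, c⟩ < r
  have ha1' : dist a.1 y < min r (ε / 4) := ha1
  unfold ucDist
  rw [if_pos ⟨ha1'.trans_le (min_le_right _ _), ha2⟩]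
  exact ha1'.trans_le (min_le_left _ _)

end Pool.Agent.H683R3.LN
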